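import Pool.Agent.R325.Moufang.Basic

/-!
MP_d39372_al, Q1 (positive answer): the kernel of a half-homomorphism from a Moufang loop into an
arbitrary loop is a normal subloop.
-/

namespace Pool.Agent.Results.MP_d39372_al.KernelNormal

open Pool.Agent.R325.Moufang

universe u v

/-- For every Moufang loop `Q`, every loop `Q'` and every half-homomorphism `φ : Q → Q'`, the
kernel of `φ` is a normal subloop of `Q`. -/
theorem result :
    ∀ (Q : Type u) (Q' : Type v) [Mul Q] [One Q] [Mul Q'] [One Q'],
      IsMoufangLoop Q → IsLoop Q' →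
      ∀ φ : Q → Q', IsHalfHom φ → IsNormalSubloop (Ker φ) := by
  intro Q Q' _ _ _ _ hQ hQ' φ hφ
  exact kernel_normal hQ hQ' φ hφ

end Pool.Agent.Results.MP_d39372_al.KernelNormal
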